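import Pool.Agent.Helper80.HD.GoalsB

/-! # Packet HD NUL: Nullstellensatz. -/

set_option autoImplicit false

open MvPolynomial Filter Topology

noncomputable section

namespace Pool.Agent.Helper27.HD

open Pool.Agent.Helper80.HD

theorem nul : S_NUL := by
  intro K _ _ σ _ S hS
  by_contra hne
  obtain ⟨m, hm, hle⟩ := Ideal.exists_le_maximal _ hne
  let L := MvPolynomial σ K ⧸ m
  letI : Field L := Ideal.Quotient.field m
  haveI : Module.Finite K L := finite_of_finite_type_of_isJacobsonRing K L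
  haveI : Algebra.IsAlgebraic K L := Algebra.IsAlgebraic.of_finite K L
  let φ : L →ₐ[K] ℂ := IsAlgClosed.lift
  let ψ : MvPolynomial σ K →ₐ[K] L := Ideal.Quotient.mkₐ K m
  obtain ⟨Q, hQ, hQ0⟩ := hS (fun i => φ (ψ (X i)))
  apply hQ0
  have h1 : (aeval (fun i => φ (ψ (X i))) : MvPolynomial σ K →ₐ[K] ℂ) = φ.comp ψ := by
    apply MvPolynomial.algHom_ext
    intro i
    simp
  rw [h1]
  have h2 : ψ Q = 0 := by
    apply Ideal.Quotient.eq_zero_iff_mem.mpr
    exact hle (Ideal.subset_span hQ)
  simp only [AlgHom.comp_apply, h2, map_zero]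

end Pool.Agent.Helper27.HD
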