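import Pool.Agent.Helper80.HD.GoalsA

/-! # Packet HD RES: the resultant form of `k + 1` big points. -/

set_option autoImplicit false

open MvPolynomial Filter Topology

noncomputable section

namespace Pool.Agent.Helper27.HD

open Pool.Agent.Helper80.HD

section

variable {K : Type} [Field K] [Algebra K ℂ]

theorem ratio_mem {N : ℕ} (F : IntermediateField K ℂ) (x : Fin (N + 1) → ℂ)
    (h : ratioField K x ≤ F) (i j : Fin (N + 1)) : x i / x j ∈ F :=
  h (IntermediateField.subset_adjoin K _ ⟨i, j, rfl⟩)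

theorem ratio_smul {N : ℕ} (F : IntermediateField K ℂ) (x : Fin (N + 1) → ℂ)
    (h : ratioField K x ≤ F) (i j : Fin (N + 1)) (S : Subalgebra F ℂ) : x i / x j ∈ S := by
  have := S.algebraMap_mem (⟨x i / x j, ratio_mem F x h i j⟩ : F)
  exact this

/-- (2): the family without `(i, p i)` is algebraically independent over `K` -/
theorem indep_without (hIND : S_IND) [CharZero K] (F : IntermediateField K ℂ) (k N : ℕ)
    (Z : Fin (k + 1) → Fin (N + 1) → ℂ) (p : Fin (k + 1) → Fin (N + 1))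
    (c : Fin (k + 1) × Fin (N + 1) → ℂ) (hFG : F.FG) (htr : Algebra.trdeg K F = k)
    (hp : ∀ i, Z i (p i) ≠ 0) (hB : ∀ i, Big K F (Z i)) (hc : AlgebraicIndependent F c)
    (i : Fin (k + 1)) :
    AlgebraicIndependent K (fun q : {q // q ≠ (i, p i)} => gen Z p c q) := by
  set Z' : Fin k → Fin (N + 1) → ℂ := fun a => Z (i.succAbove a) with hZ'
  set p' : Fin k → Fin (N + 1) := fun a => p (i.succAbove a) with hp'
  set c' : Fin k × Fin (N + 1) → ℂ := fun q => c (i.succAbove q.1, q.2) with hc'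
  set y : {j : Fin (N + 1) // j ≠ p i} → ℂ := fun j => c (i, j) with hy
  have e1 : AlgebraicIndependent F (Sum.elim y c') := by
    have h1 : Sum.elim y c' = c ∘ (Sum.elim (fun j : {j : Fin (N + 1) // j ≠ p i} => (i, (j : Fin (N + 1))))
        (fun q : Fin k × Fin (N + 1) => (i.succAbove q.1, q.2))) := by
      funext s
      rcases s with s | s <;> rfl
    rw [h1]
    apply hc.comp
    rintro (s | s) (t | t) hst
    · simp only [Sum.elim_inl, Prod.mk.injEq, true_and] at hst
      rw [Subtype.ext hst]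
    · simp only [Sum.elim_inl, Sum.elim_inr, Prod.mk.injEq] at hst
      exact absurd hst.1.symm (Fin.succAbove_ne i _)
    · simp only [Sum.elim_inl, Sum.elim_inr, Prod.mk.injEq] at hst
      exact absurd hst.1 (Fin.succAbove_ne i _)
    · simp only [Sum.elim_inr, Prod.mk.injEq] at hst
      have := Fin.succAbove_right_injective hst.1
      rw [Prod.ext this hst.2]
  rw [AlgebraicIndependent.sumElim_iff] at e1
  obtain ⟨e2, e3⟩ := e1
  have h2 : AlgebraicIndependent K (gen Z' p' c') :=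
    hIND K F k k N Z' p' c' hFG htr le_rfl (fun a => hp _) (fun a => hB _) e2
  have h3 : Set.range (gen Z' p' c') ⊆
      Set.range (algebraMap (Algebra.adjoin F (Set.range c')) ℂ) := by
    rintro _ ⟨q, rfl⟩
    have h4 : gen Z' p' c' q ∈ Algebra.adjoin F (Set.range c') := by
      unfold gen
      split_ifs with h
      · apply Subalgebra.neg_mem
        apply Subalgebra.sum_mem
        intro j _
        apply Subalgebra.mul_mem
        · exact Algebra.subset_adjoin ⟨(q.1, j), rfl⟩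
        · exact ratio_smul F _ (hB _).2.1 _ _ _
      · exact Algebra.subset_adjoin ⟨q, rfl⟩
    exact ⟨⟨_, h4⟩, rfl⟩
  have h5 : AlgebraicIndependent K (Sum.elim y (gen Z' p' c')) := h2.sumElim_of_tower h3 e3
  have h6 : ∀ q : {q : Fin (k + 1) × Fin (N + 1) // q ≠ (i, p i)},
      ∃ s : {j : Fin (N + 1) // j ≠ p i} ⊕ (Fin k × Fin (N + 1)),
        Sum.elim (fun j : {j : Fin (N + 1) // j ≠ p i} => (i, (j : Fin (N + 1))))
        (fun q : Fin k × Fin (N + 1) => (i.succAbove q.1, q.2)) s = (q : Fin (k + 1) × Fin (N + 1)) := by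
    rintro ⟨⟨a, b⟩, hq⟩
    by_cases ha : a = i
    · subst ha
      refine ⟨Sum.inl ⟨b, fun hb => hq (by rw [hb])⟩, rfl⟩
    · obtain ⟨a', rfl⟩ := Fin.exists_succAbove_eq ha
      exact ⟨Sum.inr (a', b), rfl⟩
  choose g hg using h6
  have h7 : (fun q : {q // q ≠ (i, p i)} => gen Z p c q) = Sum.elim y (gen Z' p' c') ∘ g := by
    funext q
    have h8 := hg q
    rcases hgq : g q with s | s
    · rw [hgq] at h8
      simp only [Sum.elim_inl] at h8
      simp only [Function.comp, hgq, Sum.elim_inl, hy]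
      rw [← h8]
      unfold gen
      rw [if_neg s.2]
    · rw [hgq] at h8
      simp only [Sum.elim_inr] at h8
      simp only [Function.comp, hgq, Sum.elim_inr]
      rw [← h8]
      rfl
  rw [h7]
  apply h5.comp
  intro s t hst
  apply Subtype.ext
  rw [← hg s, ← hg t, hst]

/-- (1): the whole family is not algebraically independent -/
theorem not_indep (F : IntermediateField K ℂ) (k N : ℕ)
    (Z : Fin (k + 1) → Fin (N + 1) → ℂ) (p : Fin (k + 1) → Fin (N + 1))
    (c : Fin (k + 1) × Fin (N + 1) → ℂ) (htr : Algebra.trdeg K F = k)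
    (hB : ∀ i, Big K F (Z i)) :
    ¬ AlgebraicIndependent K (gen Z p c) := by
  intro hind
  let ι := {q : Fin (k + 1) × Fin (N + 1) // ¬ (q.2 = p q.1)}
  let c' : ι → ℂ := fun q => c q
  let S : Subalgebra F ℂ := (aeval c' : MvPolynomial ι F →ₐ[F] ℂ).range
  have hcS : ∀ q : ι, c' q ∈ S := fun q => ⟨X q, by simp⟩
  have hS : ∀ q, gen Z p c q ∈ S := by
    intro q
    unfold gen
    split_ifs with h
    · apply Subalgebra.neg_mem
      apply Subalgebra.sum_mem
      intro j hj
      apply Subalgebra.mul_mem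
      · exact hcS ⟨(q.1, j), Finset.ne_of_mem_erase hj⟩
      · exact ratio_smul F _ (hB _).2.1 _ _ _
    · exact hcS ⟨q, h⟩
  let θ : Fin (k + 1) × Fin (N + 1) → S := fun q => ⟨gen Z p c q, hS q⟩
  have h1 : AlgebraicIndependent K θ := by
    have h2 : AlgebraicIndependent K ((IsScalarTower.toAlgHom K S ℂ) ∘ θ) := hind
    exact ((IsScalarTower.toAlgHom K S ℂ).algebraicIndependent_iff Subtype.val_injective).mp h2
  have h3 := h1.cardinalMk_le_trdeg
  have h4 : Algebra.trdeg F S ≤ Cardinal.mk ι := by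
    have h5 := trdeg_le_of_surjective (aeval c' : MvPolynomial ι F →ₐ[F] ℂ).rangeRestrict
      (AlgHom.rangeRestrict_surjective _)
    rw [MvPolynomial.trdeg_of_isDomain, Cardinal.lift_id] at h5
    exact h5
  have h6 : Algebra.trdeg K F + Algebra.trdeg F S = Algebra.trdeg K S :=
    _root_.trdeg_add_eq K F
  rw [← h6, htr] at h3
  have h7 : Cardinal.mk ι = (((k + 1) * N : ℕ) : Cardinal) := by
    rw [Cardinal.mk_fintype]
    congr 1
    have h8 : Fintype.card {q : Fin (k + 1) × Fin (N + 1) // q.2 = p q.1} = k + 1 := by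
      refine (Fintype.card_congr ?_).trans (Fintype.card_fin (k + 1))
      refine ⟨fun q => q.1.1, fun a => ⟨(a, p a), rfl⟩, ?_, fun a => rfl⟩
      rintro ⟨⟨a, b⟩, hq⟩
      simp only at hq
      subst hq
      rfl
    have h9 := Fintype.card_subtype_compl (fun q : Fin (k + 1) × Fin (N + 1) => q.2 = p q.1)
    have h10 : Fintype.card ι = Fintype.card {q : Fin (k + 1) × Fin (N + 1) // ¬ (q.2 = p q.1)} :=
      Fintype.card_congr (Equiv.refl _)
    rw [h10, h9, h8, Fintype.card_prod, Fintype.card_fin, Fintype.card_fin]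
    rw [Nat.mul_succ]
    omega
  rw [h7] at h4
  have h11 : Cardinal.mk (Fin (k + 1) × Fin (N + 1)) = (((k + 1) * (N + 1) : ℕ) : Cardinal) := by
    rw [Cardinal.mk_fintype, Fintype.card_prod, Fintype.card_fin, Fintype.card_fin]
  rw [h11] at h3
  have h12 : (((k + 1) * (N + 1) : ℕ) : Cardinal) ≤ ((k + (k + 1) * N : ℕ) : Cardinal) := by
    refine h3.trans ?_
    rw [Nat.cast_add]
    exact add_le_add le_rfl h4
  rw [Nat.cast_le, Nat.mul_succ] at h12
  omega

end

theorem degreeOf_le_of_dvd {K : Type} [Field K] {σ : Type} (P Q : MvPolynomial σ K) (hQ : Q ≠ 0)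
    (h : P ∣ Q) (i : σ) : P.degreeOf i ≤ Q.degreeOf i := by
  obtain ⟨R, rfl⟩ := h
  have hP : P ≠ 0 := left_ne_zero_of_mul hQ
  have hR : R ≠ 0 := right_ne_zero_of_mul hQ
  rw [MvPolynomial.degreeOf_mul_eq hP hR]
  omega

theorem res (hGENEX : S_GENEX) (hGENV : S_GENV) (hIND : S_IND) (hKER : S_KER) : S_RES := by
  intro K _ _ _ F k N Z hFG htr hB
  have main : ∀ i j, Z i j ≠ 0 → ∃ P : MvPolynomial (Fin (k + 1) × Fin (N + 1)) K,
      Irreducible P ∧ 0 < P.degreeOf (i, j) ∧ IsRes K Z P := by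
    intro i j hij
    have hex : ∀ a, ∃ b, Z a b ≠ 0 ∧ (a = i → b = j) := by
      intro a
      by_cases ha : a = i
      · subst ha
        exact ⟨j, hij, fun _ => rfl⟩
      · obtain ⟨b, hb⟩ := Function.ne_iff.mp (hB a).1
        exact ⟨b, hb, fun h => absurd h ha⟩
    choose p hp hpi using hex
    obtain ⟨c, hc⟩ := hGENEX K F hFG (Fin (k + 1) × Fin (N + 1))
    have hw := indep_without hIND F k N Z p c hFG htr hp hB hc i
    rw [hpi i rfl] at hw
    obtain ⟨P, hP1, hP2, hP3⟩ := hKER K (Fin (k + 1) × Fin (N + 1)) (gen Z p c) (i, j) hw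
      (not_indep F k N Z p c htr hB)
    refine ⟨P, hP1, hP2, fun Q => ?_⟩
    rw [hP3 Q]
    exact ((((hGENV K F (k + 1) N Z p c hp).2 (fun a => (hB a).2.1) hc).2) Q).symm
  obtain ⟨j0, hj0⟩ := Function.ne_iff.mp (hB 0).1
  obtain ⟨P0, hP01, -, hP03⟩ := main 0 j0 hj0
  have hexR : ∃ P, IsRes K Z P := ⟨P0, hP03⟩
  have hres : IsRes K Z (resForm K Z) := by
    unfold resForm
    rw [dif_pos hexR]
    exact hexR.choose_spec
  have hdvd : ∀ P Q : MvPolynomial (Fin (k + 1) × Fin (N + 1)) K, IsRes K Z P → IsRes K Z Q → P ∣ Q := by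
    intro P Q hP hQ
    rw [hP Q, ← hQ Q]
  have hass : Associated P0 (resForm K Z) :=
    associated_of_dvd_dvd (hdvd _ _ hP03 hres) (hdvd _ _ hres hP03)
  have hirr : Irreducible (resForm K Z) := hass.irreducible hP01
  refine ⟨hres, hirr, ?_⟩
  intro i j hij
  obtain ⟨P, -, hP2, hP3⟩ := main i j hij
  exact lt_of_lt_of_le hP2 (degreeOf_le_of_dvd P _ hirr.ne_zero (hdvd _ _ hP3 hres) (i, j))

end Pool.Agent.Helper27.HD
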